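import Pool.Agent.KIL.StmtsB

/-!
# VLR of the block KIL (the last round of a phase of pre-kills), for AND2B
-/

set_option autoImplicit false

open MeasureTheory ProbabilityTheory Function Filter

open scoped ENNReal BigOperators Topology NNReal Matrix

noncomputable section

namespace Pool.Agent.KIL.H16

open Pool.Agent.ANP (Cfg Att gm)
open Pool.Agent.LE.QF (HJ HM gG LL dC)

section basic

variable {X : Type} [Fintype X] [DecidableEq X]

omit [Fintype X] [DecidableEq X] in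
theorem nn_nonneg (κ : X → ℝ) (G : Matrix X X ℂ) (o v : X) (h : ∀ v, 0 ≤ κ v) :
    0 ≤ nn κ G o v := by
  unfold nn
  exact mul_nonneg (h v) (by positivity)

theorem aa_nonneg (κ : X → ℝ) (G : Matrix X X ℂ) (o v : X) (h : ∀ v, 0 ≤ κ v)
    (hg : 0 < gam κ G o) : 0 ≤ aa κ G o v := div_nonneg (nn_nonneg κ G o v h) hg.le

theorem aa_sum (κ : X → ℝ) (G : Matrix X X ℂ) (o : X) (hg : 0 < gam κ G o) :
    ∑ v ∈ Finset.univ.erase o, aa κ G o v = 1 := by
  unfold aa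
  rw [← Finset.sum_div]
  exact div_self hg.ne'

theorem cu_mono : Monotone cu := by
  intro x y h
  unfold cu
  have h1 : max (1 - y) 0 ≤ max (1 - x) 0 := max_le_max (by linarith) le_rfl
  have h2 : max (1 - y) 0 ^ 3 ≤ max (1 - x) 0 ^ 3 := pow_le_pow_left₀ (le_max_right _ _) h1 3
  linarith

theorem cu_bd (x : ℝ) (h : 0 ≤ x) : 0 ≤ cu x ∧ cu x ≤ 1 := by
  unfold cu
  have h1 : 0 ≤ max (1 - x) 0 := le_max_right _ _
  have h2 : max (1 - x) 0 ≤ 1 := max_le (by linarith) zero_le_one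
  have h3 : max (1 - x) 0 ^ 3 ≤ 1 := pow_le_one₀ h1 h2
  have h4 : 0 ≤ max (1 - x) 0 ^ 3 := pow_nonneg h1 3
  constructor <;> linarith

theorem cu_cont : Continuous cu := by
  unfold cu
  fun_prop

theorem uL_nonneg {ι : Type} [Fintype ι] (e : ι → X) (B : Finset X) (lam ρ t₁ : ℝ) (j : ℕ)
    (κ : X → ℝ) (G : Matrix X X ℂ) (o : X) (ht : 0 < t₁) (ha : ∀ v, 0 ≤ aa κ G o v) :
    0 ≤ uL e B lam ρ t₁ j κ G o := by
  unfold uL
  have h1 : 0 ≤ ∑ v ∈ B, ((aa κ G o v + t₁ / 2) / (5 * t₁ / 2)) ^ j :=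
    Finset.sum_nonneg fun v _ => pow_nonneg (div_nonneg (by have := ha v; linarith) (by linarith)) j
  positivity

theorem uL_lt {ι : Type} [Fintype ι] (e : ι → X) (B : Finset X) (lam ρ t₁ : ℝ) (j : ℕ)
    (κ : X → ℝ) (G : Matrix X X ℂ) (o : X) (ht : 0 < t₁) (hl : 0 ≤ lam)
    (ha : ∀ v, 0 ≤ aa κ G o v) (hu : uL e B lam ρ t₁ j κ G o < 1) (v : X) (hv : v ∈ B) :
    aa κ G o v ≤ 2 * t₁ := by
  unfold uL at hu
  have h0 : ∀ v ∈ B, 0 ≤ ((aa κ G o v + t₁ / 2) / (5 * t₁ / 2)) ^ j :=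
    fun v _ => pow_nonneg (div_nonneg (by have := ha v; linarith) (by linarith)) j
  have h1 : ((aa κ G o v + t₁ / 2) / (5 * t₁ / 2)) ^ j ≤
      ∑ v ∈ B, ((aa κ G o v + t₁ / 2) / (5 * t₁ / 2)) ^ j :=
    Finset.single_le_sum h0 hv
  have h2 : 1 ≤ Real.exp (lam * ∑ c, aa κ G o (e c)) :=
    Real.one_le_exp (mul_nonneg hl (Finset.sum_nonneg fun c _ => ha _))
  have h3 : 0 < Real.exp (lam * ((∑ c, aa κ G o (e c)) - 2 * ρ)) := Real.exp_pos _
  have h4 : ((aa κ G o v + t₁ / 2) / (5 * t₁ / 2)) ^ j < 1 := by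
    have h5 : ∑ v ∈ B, ((aa κ G o v + t₁ / 2) / (5 * t₁ / 2)) ^ j ≤
        Real.exp (lam * ∑ c, aa κ G o (e c)) *
          ∑ v ∈ B, ((aa κ G o v + t₁ / 2) / (5 * t₁ / 2)) ^ j :=
      le_mul_of_one_le_left (Finset.sum_nonneg h0) h2
    linarith
  by_contra hc
  push Not at hc
  have h5 : 1 ≤ (aa κ G o v + t₁ / 2) / (5 * t₁ / 2) := by
    rw [le_div_iff₀ (by linarith)]
    linarith
  have h6 := one_le_pow₀ h5 (n := j)
  linarith

end basic

theorem vlr (hUDR : UdrStmt) (hUGD : UgdStmt) (hUEN : UenStmt) (hRCM : RcmStmt)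
    (hKLR : KlrStmt) : VlrStmt := by
  intro X _ _ Y T₀ T P K D Gm kp S r hOk hR hD hr hrρ hK hS hRun
  have hO0 : P.Ok0 Y T₀ := hOk.toOk0
  have hs : 0 < P.s := hO0.sR.2
  obtain ⟨ht₀, ht01, ht1, hρ, hρ1, hε, hjL, hθK⟩ := hOk.po2
  obtain ⟨hθ, hθK0, hθm, hg₀, hκ₀, hδ, hj⟩ := hO0.pos
  have ht₁ : 0 < P.t₁ := lt_of_lt_of_le ht₀ ht01
  have hDs : D ⊆ P.R \ K := fun v hv => ((hD v).1 hv).1
  have hoR : P.o ∉ P.R := fun h => Finset.disjoint_left.1 hO0.QR hOk.oQ h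
  -- the start
  have hst := hRun.st
  have hpos : ∀ t, 0 ≤ t → t ≤ P.s → ∀ v, 0 ≤ kp t v := fun t h1 h2 v => (hRun.pos t h1 h2 v).1.le
  have haa : ∀ q : ℝ × (D → ℝ), 0 ≤ q.1 → q.1 ≤ P.s → ∀ v, 0 ≤ aa (kp q.1) (Gm q) P.o v :=
    fun q h1 h2 v => aa_nonneg _ _ _ _ (hpos q.1 h1 h2) (hRun.gm q h1 h2 P.o)
  have hg0 : 0 < gam (Y.k T) (Y.G T) P.o := by
    have := hRun.gm (0, 0) le_rfl hs.le P.o
    rw [hst.1] at this
    simp only at this
    rwa [hst.2] at this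
  have ha0 : ∀ v, 0 ≤ aa (Y.k T) (Y.G T) P.o v := by
    intro v
    have := haa (0, 0) le_rfl hs.le v
    rw [hst.1] at this
    simp only at this
    rwa [hst.2] at this
  have hDo : D ⊆ Finset.univ.erase P.o := by
    intro v hv
    refine Finset.mem_erase.2 ⟨?_, Finset.mem_univ v⟩
    rintro rfl
    exact hoR (Finset.mem_sdiff.1 (hDs hv)).1
  have hr1 : r ≤ 1 := by
    rw [hr, ← aa_sum (Y.k T) (Y.G T) P.o hg0]
    exact Finset.sum_le_sum_of_subset_of_nonneg hDo fun v _ _ => ha0 v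
  have hDc : P.t₁ * (D.card : ℝ) ≤ r := by
    have h1 : ∑ _v ∈ D, P.t₁ ≤ ∑ v ∈ D, aa (Y.k T) (Y.G T) P.o v :=
      Finset.sum_le_sum fun v hv => ((hD v).1 hv).2
    rw [Finset.sum_const, nsmul_eq_mul] at h1
    rw [hr]
    linarith
  have hDc1 : (D.card : ℝ) ≤ 1 / P.t₁ := by
    rw [le_div_iff₀ ht₁]
    linarith
  have hcard : ((K ∪ D).card : ℝ) ≤ P.nK := by
    have h1 : ((K ∪ D).card : ℝ) ≤ (K.card : ℝ) + D.card := by
      exact_mod_cast Finset.card_union_le K D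
    have h2 : ((K ∪ D).card : ℝ) ≤ (P.S₀ + 1) / P.t₁ := by
      rw [le_div_iff₀ ht₁]
      nlinarith
    exact h2.trans hOk.nK
  obtain ⟨hu1, hu2, hu3⟩ := hUDR X Y T₀ T P K D Gm kp hO0 hR hDs hcard hRun
  obtain ⟨hc1, hc2, hc3⟩ := hRCM X Y T₀ T P K D Gm kp hR hDs hs hRun
  have hlam : 0 ≤ (P.jL : ℝ) / (4 * P.ρ) := by positivity
  have hBR : P.R \ (K ∪ D) ⊆ P.R \ K := Finset.sdiff_subset_sdiff le_rfl Finset.subset_union_left
  have hUL0 : ∀ V : D → ℝ, 0 ≤ uL (fun c : D => (c : X)) (P.R \ (K ∪ D)) (P.jL / (4 * P.ρ)) P.ρ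
      P.t₁ P.jL (kp P.s) (Gm (P.s, V)) P.o := fun V =>
    uL_nonneg _ _ _ _ _ _ _ _ _ ht₁ fun v => haa (P.s, V) hs.le le_rfl v
  have hUR0 : ∀ V : D → ℝ, 0 ≤ P.ur K D (kp P.s) (Gm (P.s, V)) P.s := fun V =>
    (hu1 (P.s, V) hs.le le_rfl).1
  constructor
  · intro V hV
    have hV1 : P.ur K D (kp P.s) (Gm (P.s, V)) P.s < 1 := by
      have := hUL0 V
      linarith
    have hV2 : uL (fun c : D => (c : X)) (P.R \ (K ∪ D)) (P.jL / (4 * P.ρ)) P.ρ
        P.t₁ P.jL (kp P.s) (Gm (P.s, V)) P.o < 1 := by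
      have := hUR0 V
      linarith
    obtain ⟨e1, e2, e3, -, -⟩ := hUEN X Y T₀ T P K D Gm kp (P.s, V) hO0 hR hDs hcard hRun
      hs.le le_rfl hV1
    obtain ⟨en1, en2⟩ := hRun.en V
    refine ⟨⟨hc1 V, hcard, ?_, ?_, ?_⟩, ?_⟩
    · intro x hx y hy
      rw [← en1, ← hO0.G0.1]
      exact e1 x (hBR hx) y (hBR hy)
    · intro b hb x hx
      rw [← en1, ← hO0.G0.1, ← hO0.G0.2]
      exact e2 b hb x (hBR hx)
    · intro x hx
      rw [← en1, ← en2, ← hO0.G0.1]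
      exact e3 x (hBR hx)
    · intro v hv
      rw [← en1, ← en2]
      exact uL_lt _ _ _ _ _ _ _ _ _ ht₁ hlam (fun v => haa (P.s, V) hs.le le_rfl v) hV2 v hv
  · -- the integral
    set bn : ℝ := 20 * P.jL * P.δ ^ 2 * Real.sqrt (1 / P.t₁ * Real.sqrt (1 / P.t₁ * P.Lc)) /
        (P.ρ * P.g₀) +
      128 * P.jL * P.ρ * P.δ ^ 2 * (1 / P.t₁) * (P.κs * P.kI / P.g₀) / P.t₁ with hbn
    obtain ⟨ee1, ee2, ee3⟩ := hOk.e1
    obtain ⟨ff1, ff2, ff3⟩ := hOk.e2
    have hkI : 0 ≤ P.kI := by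
      have := hO0.θδ.2
      nlinarith [sq_nonneg P.θ]
    have hbt : 0 ≤ P.bt := by
      unfold Pha.bt Pha.NM
      have h1 : (0 : ℝ) ≤ (P.R.card : ℝ) := Nat.cast_nonneg _
      have h2 : (0 : ℝ) ≤ (P.Q.card : ℝ) := Nat.cast_nonneg _
      have h3 : (0 : ℝ) ≤ (1 / 4) ^ P.j := by positivity
      have h4 : (0 : ℝ) ≤ ((P.R.card : ℝ) + P.Q.card) * P.R.card :=
        mul_nonneg (add_nonneg h1 h2) h1
      exact mul_nonneg (mul_nonneg (by norm_num) (add_nonneg h4 h1)) h3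
    -- the case of an empty `D` or nonnegative numbers
    have hsg : D = ∅ ∨ (0 ≤ P.κs ∧ 0 ≤ P.Lc) := by
      rcases Finset.eq_empty_or_nonempty D with h | ⟨x, hx⟩
      · exact Or.inl h
      · right
        have hxR : x ∈ P.R := (Finset.mem_sdiff.1 (hDs hx)).1
        refine ⟨(hO0.kR.1 x).le.trans (hO0.kR.2 x hxR).2, ?_⟩
        have hΛ : 0 ≤ P.Λ := (Finset.sum_nonneg fun y _ => by positivity).trans (hO0.Λ x hxR)
        unfold Pha.Lc
        positivity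
    have hq1 : P.κs * Real.sqrt (Fintype.card D * P.Lc) / P.g₀ ≤ P.ε ^ 2 := by
      rcases hsg with h | ⟨h1, h2⟩
      · have h3 : (Fintype.card D : ℝ) = 0 := by
          rw [Fintype.card_coe, h]
          simp
        rw [h3, zero_mul, Real.sqrt_zero, mul_zero, zero_div]
        positivity
      · refine le_trans ?_ ee2
        have h3 : (Fintype.card D : ℝ) ≤ 2 / P.t₀ := by
          rw [Fintype.card_coe]
          refine hDc1.trans ?_
          rw [div_le_div_iff₀ ht₁ ht₀]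
          linarith
        have h4 : Real.sqrt (Fintype.card D * P.Lc) ≤ Real.sqrt (2 / P.t₀ * P.Lc) :=
          Real.sqrt_le_sqrt (mul_le_mul_of_nonneg_right h3 h2)
        exact div_le_div_of_nonneg_right (mul_le_mul_of_nonneg_left h4 h1) hg₀.le
    have hq2 : 20 * P.jL * P.δ ^ 2 *
        Real.sqrt (Fintype.card D * Real.sqrt (Fintype.card D * P.Lc)) / (P.ρ * P.g₀) +
          128 * P.jL * P.ρ * P.δ ^ 2 * Fintype.card D * (P.κs * P.kI / P.g₀) / P.t₁ ≤
        max bn 0 := by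
      rcases hsg with h | ⟨h1, h2⟩
      · have h3 : (Fintype.card D : ℝ) = 0 := by
          rw [Fintype.card_coe, h]
          simp
        rw [h3]
        simp
      · refine le_trans ?_ (le_max_left _ _)
        have h3 : (Fintype.card D : ℝ) ≤ 1 / P.t₁ := by
          rw [Fintype.card_coe]
          exact hDc1
        have h4 : Real.sqrt (Fintype.card D * Real.sqrt (Fintype.card D * P.Lc)) ≤
            Real.sqrt (1 / P.t₁ * Real.sqrt (1 / P.t₁ * P.Lc)) :=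
          Real.sqrt_le_sqrt (mul_le_mul h3 (Real.sqrt_le_sqrt (mul_le_mul_of_nonneg_right h3 h2))
            (Real.sqrt_nonneg _) (by positivity))
        have h5 : 0 ≤ P.κs * P.kI / P.g₀ := by positivity
        rw [hbn]
        have h6 : 20 * P.jL * P.δ ^ 2 *
            Real.sqrt (Fintype.card D * Real.sqrt (Fintype.card D * P.Lc)) / (P.ρ * P.g₀) ≤
            20 * P.jL * P.δ ^ 2 * Real.sqrt (1 / P.t₁ * Real.sqrt (1 / P.t₁ * P.Lc)) /
              (P.ρ * P.g₀) :=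
          div_le_div_of_nonneg_right (mul_le_mul_of_nonneg_left h4 (by positivity))
            (by positivity)
        have h7 : 128 * P.jL * P.ρ * P.δ ^ 2 * Fintype.card D * (P.κs * P.kI / P.g₀) / P.t₁ ≤
            128 * P.jL * P.ρ * P.δ ^ 2 * (1 / P.t₁) * (P.κs * P.kI / P.g₀) / P.t₁ :=
          div_le_div_of_nonneg_right (mul_le_mul_of_nonneg_right
            (mul_le_mul_of_nonneg_left h3 (by positivity)) h5) ht₁.le
        linarith
    have hsb : P.s * max bn 0 ≤ 1 := by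
      rcases le_total bn 0 with h | h
      · rw [max_eq_right h, mul_zero]
        exact zero_le_one
      · rw [max_eq_left h]
        exact ff3
    have hmain := hKLR D X (fun c : D => (c : X)) Gm kp (fun x => (P.mb x).im)
      (fun q c => Gm q c c - P.mb c) (P.R \ K) (P.R \ (K ∪ D)) P.o P.s P.κs P.g₀ P.δ P.Lc P.kI
      P.t₁ P.ρ P.ε (P.κs * P.kI / P.g₀) (max bn 0) (P.jL / (4 * P.ρ)) P.jL
      (fun q => P.ur K D (kp q.1) (Gm q) q.1) (fun _ => P.bt / (3 * P.s)) hs hBR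
      (fun c hc => (Finset.mem_sdiff.1 hc).2 (Finset.mem_union_right _ c.2))
      (fun c => hDs c.2) (fun h => hoR (Finset.mem_sdiff.1 h).1) hkI hjL ht₁ ht1 hρ hε ee3 ee1
      hq1 rfl rfl ff1 ff2 (le_max_right _ _) hq2 continuous_const
      (fun _ => by positivity)
      (fun q h1 h2 => ⟨hRun.jets q h1 h2, hpos q.1 h1 h2, hRun.gm q h1 h2 P.o,
        (hu1 q h1 h2).1, (hu1 q h1 h2).2.1, fun h => by
          obtain ⟨g1, g2⟩ := hUGD X Y T₀ T P K D Gm kp q hOk hR hDs hcard hRun h1 h2 h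
          exact ⟨(hu1 q h1 h2).2.2 h, g1, fun v hv c => g2 v (hBR hv) c⟩⟩)
      (by
        rw [hst.1, hst.2]
        rw [Finset.sum_coe_sort D (fun v => aa (Y.k T) (Y.G T) P.o v), ← hr]
        exact hrρ.le)
      (by
        rw [hst.1, hst.2]
        intro v hv
        by_contra hc
        push Not at hc
        have hv1 := Finset.mem_sdiff.1 hv
        exact hv1.2 (Finset.mem_union_right _ ((hD v).2 ⟨hBR hv, hc.le⟩)))
    -- continuity
    have hcur : Continuous fun V : D → ℝ => P.ur K D (kp P.s) (Gm (P.s, V)) P.s := by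
      rw [continuous_iff_continuousAt]
      intro V
      have h1 := (hu1 (P.s, V) hs.le le_rfl).2.1.continuousAt
      have h2 : ContinuousAt (fun V : D → ℝ => ((P.s, V) : ℝ × (D → ℝ))) V := by fun_prop
      exact ContinuousAt.comp (f := fun V : D → ℝ => ((P.s, V) : ℝ × (D → ℝ)))
        (g := fun r : ℝ × (D → ℝ) => P.ur K D (kp r.1) (Gm r) r.1) h1 h2
    have hcaa : ∀ v, Continuous fun V : D → ℝ => aa (kp P.s) (Gm (P.s, V)) P.o v := by
      intro v
      unfold aa gam nn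
      refine Continuous.div ?_ ?_ ?_
      · exact continuous_const.mul ((hc3 v P.o).norm.pow 2)
      · exact continuous_finsetSum _ fun w _ => continuous_const.mul ((hc3 w P.o).norm.pow 2)
      · intro V
        exact (hRun.gm (P.s, V) hs.le le_rfl P.o).ne'
    have hcuL : Continuous fun V : D → ℝ => uL (fun c : D => (c : X)) (P.R \ (K ∪ D))
        (P.jL / (4 * P.ρ)) P.ρ P.t₁ P.jL (kp P.s) (Gm (P.s, V)) P.o := by
      unfold uL
      have h1 : Continuous fun V : D → ℝ => ∑ c : D, aa (kp P.s) (Gm (P.s, V)) P.o c :=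
        continuous_finsetSum _ fun c _ => hcaa c
      refine Continuous.add ?_ ?_
      · exact Real.continuous_exp.comp (continuous_const.mul (h1.sub continuous_const))
      · refine Continuous.mul (Real.continuous_exp.comp (continuous_const.mul h1)) ?_
        exact continuous_finsetSum _ fun v _ =>
          ((((hcaa v).add continuous_const).div_const _).pow _)
    have hcF : Continuous fun V : D → ℝ => cu (P.ur K D (kp P.s) (Gm (P.s, V)) P.s +
        uL (fun c : D => (c : X)) (P.R \ (K ∪ D)) (P.jL / (4 * P.ρ)) P.ρ P.t₁ P.jL (kp P.s)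
          (Gm (P.s, V)) P.o) := cu_cont.comp (hcur.add hcuL)
    have hbF : ∀ V : D → ℝ, 0 ≤ cu (P.ur K D (kp P.s) (Gm (P.s, V)) P.s +
        uL (fun c : D => (c : X)) (P.R \ (K ∪ D)) (P.jL / (4 * P.ρ)) P.ρ P.t₁ P.jL (kp P.s)
          (Gm (P.s, V)) P.o) ∧ cu (P.ur K D (kp P.s) (Gm (P.s, V)) P.s +
        uL (fun c : D => (c : X)) (P.R \ (K ∪ D)) (P.jL / (4 * P.ρ)) P.ρ P.t₁ P.jL (kp P.s)
          (Gm (P.s, V)) P.o) ≤ 1 := fun V => cu_bd _ (add_nonneg (hUR0 V) (hUL0 V))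
    have hint : Integrable (fun V : D → ℝ => cu (P.ur K D (kp P.s) (Gm (P.s, V)) P.s +
        uL (fun c : D => (c : X)) (P.R \ (K ∪ D)) (P.jL / (4 * P.ρ)) P.ρ P.t₁ P.jL (kp P.s)
          (Gm (P.s, V)) P.o)) (Measure.pi fun _ : D => gaussianReal 0 P.s.toNNReal) := by
      refine Integrable.of_bound hcF.aestronglyMeasurable 1 (Eventually.of_forall fun V => ?_)
      rw [Real.norm_eq_abs, abs_of_nonneg (hbF V).1]
      exact (hbF V).2
    rw [← ofReal_integral_eq_lintegral_ofReal hint (Eventually.of_forall fun V => (hbF V).1)]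
    refine ENNReal.ofReal_le_ofReal (hmain.trans ?_)
    have hi : ∫ _t in (0 : ℝ)..P.s, P.bt / (3 * P.s) = P.bt / 3 := by
      rw [intervalIntegral.integral_const, sub_zero, smul_eq_mul]
      field_simp
    have hcu0 : cu (P.ur K D (kp 0) (Gm (0, 0)) 0) ≤ cu (P.u K (Y.k T) (Y.G T)) := cu_mono hu2
    have hex : Real.exp (P.s * max bn 0) ≤ 3 := by
      have h1 : Real.exp (P.s * max bn 0) ≤ Real.exp 1 := Real.exp_le_exp.2 hsb
      have h2 := Real.exp_one_lt_d9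
      linarith
    have hca : ((P.R \ (K ∪ D)).card : ℝ) ≤ P.R.card := by
      exact_mod_cast Finset.card_le_card Finset.sdiff_subset
    have hfin : 3 * Real.exp (P.s * max bn 0) * ((1 + ((P.R \ (K ∪ D)).card : ℝ)) *
        Real.exp (-(P.jL : ℝ) / 5)) ≤ 9 * (1 + P.R.card) * Real.exp (-(P.jL : ℝ) / 5) := by
      have h1 : (1 + ((P.R \ (K ∪ D)).card : ℝ)) * Real.exp (-(P.jL : ℝ) / 5) ≤
          (1 + P.R.card) * Real.exp (-(P.jL : ℝ) / 5) :=
        mul_le_mul_of_nonneg_right (by linarith) (Real.exp_pos _).le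
      calc 3 * Real.exp (P.s * max bn 0) * ((1 + ((P.R \ (K ∪ D)).card : ℝ)) *
        Real.exp (-(P.jL : ℝ) / 5)) ≤ 3 * 3 * ((1 + P.R.card) * Real.exp (-(P.jL : ℝ) / 5)) := by
            apply mul_le_mul (by linarith) h1 _ (by norm_num)
            have h2 : (0 : ℝ) ≤ ((P.R \ (K ∪ D)).card : ℝ) := Nat.cast_nonneg _
            exact mul_nonneg (by linarith) (Real.exp_pos _).le
        _ = _ := by ring
    rw [hi]
    show cu (P.ur K D (kp 0) (Gm (0, 0)) 0) + _ + _ ≤ _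
    linarith

end Pool.Agent.KIL.H16
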